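import Mathlib
import Pool.Agent.Q254.Theta.Stm
import Pool.Agent.Q254.Theta.X0
import Pool.Agent.Q254.Theta.Asm
import Pool.Agent.Q285.Theta.Ser
import Pool.Agent.Q285.Theta.JobA
import Pool.Agent.Q13.Theta.SQ
import Pool.Agent.Q13.Theta.DD
import Pool.Agent.Q13.Theta.MU
import Pool.Agent.Q146.Theta.Alpha
import Pool.Agent.Q285.Theta.JobB
import Pool.Agent.Q285.Theta.Lucas
import Pool.Agent.Q210.Theta.Int

/-!
# MP_3ef01f_nt: the period length of the theta Taylor coefficients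

`d` is the sequence of the problem (`Pool.Agent.Q254.Theta.Stm`). For every prime
`p = 1 mod 4` and every `e ≥ 1` the sequence `d(n)` is periodic modulo `p^e`, from `n ≥ e/2` on,
with period length `p^(e-1) (p-1)^2 / 8`.
-/

namespace Pool.Agent.Results.MP_3ef01f_nt.HalfPeriod

open Pool.Agent.Q254.Theta

/-- All `d(n)` are integers, and for every prime `p = 1 mod 4`, every `e ≥ 1` and every `n` with
`2n ≥ e`: `d(n + p^(e-1)(p-1)²/8) ≡ d(n) mod p^e`, and the congruence with multiplier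
`d(n + p^(e-1)(p-1)/2) ≡ (-2^((p-1)/2) (3·7·11⋯(2p-3))²)^(p^(e-1)) d(n) mod p^e`. -/
theorem result : ∃ D : ℕ → ℤ, (∀ n, d n = (D n : ℚ)) ∧
    ∀ p : ℕ, p.Prime → p % 4 = 1 → ∀ e : ℕ, 1 ≤ e → ∀ n : ℕ, e ≤ 2 * n →
      D (n + p ^ (e - 1) * (p - 1) ^ 2 / 8) ≡ D n [ZMOD (p : ℤ) ^ e] ∧
      D (n + p ^ (e - 1) * ((p - 1) / 2)) ≡
        (-(∏ j ∈ Finset.range ((p - 1) / 2), (4 * ((j : ℤ) + 1) - 1)) ^ 2 *
          2 ^ ((p - 1) / 2)) ^ p ^ (e - 1) * D n [ZMOD (p : ℤ) ^ e] :=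
  Asm.goal Pool.Agent.Q210.Theta.int Pool.Agent.Q285.Theta.B.b1 Pool.Agent.Q285.Theta.B.b2
    Pool.Agent.Q285.Theta.ser1 Pool.Agent.Q285.Theta.ser2
    Pool.Agent.Q13.Theta.sq Pool.Agent.Q285.Theta.L.lu XZ.x0 Pool.Agent.Q146.Theta.al Pool.Agent.Q285.Theta.A.jobA
    Pool.Agent.Q13.Theta.dd Pool.Agent.Q13.Theta.mu

end Pool.Agent.Results.MP_3ef01f_nt.HalfPeriod
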